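import Pool.Agent.Q224.EB.Algo

/-!
# The outcome problem of Edge Blocking is EXPTIME-complete

For each of the three outcomes, for all positions and already for the positions in which no edge may
be used by both players.

Idea of the reduction (from alternating Boolean register machines; Left wins iff the machine
accepts, and otherwise the play is a draw).  Register `j` is a region with vertices `x`, `y0`, `y1`,
two tokens, edges of Left `x <-> y0, y1`, and edges of Right from each of the three vertices to the
haven `W0`; the register has value `b` if the tokens are on `x` and `yb`, and it is lifted if they
are on `y0` and `y1`.  Right can play forever on `W0 <-> W1` once a token is there; but if Right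
steals a token from a region too early, then Left moves the control token to `W1`, and Right has no
move.  The control token goes through the rules of the machine.  Left chooses the rules, Right the
premises; Right may test a guard (move the control token to `yb` if it is free) and thereby verify
that it fails.  For an update, Left lifts the register and puts it back with the new value; Right
moves the control token along and may occupy any vertex which should not be free.
-/

set_option autoImplicit false

namespace Pool.Agent.Results.MP_817c3f_lc.ExptimeComplete

open Pool.Agent.NPC Pool.Agent.H820R2.SS Pool.Agent.Q224.EB

/-- Completeness for `EXPTIME` under polynomial-time many-one reductions. -/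
def Complete (L : Set (List Bool)) : Prop :=
  InEXPTIME L ∧ ∀ L' : Set (List Bool), InEXPTIME L' → Reduces L' L

/-- The outcome problem: the positions with property `T` that have the outcome `W`. -/
def Outcome (W : Desc → Prop) (T : Desc → Prop) : Set (List Bool) :=
  lang (fun D : Desc => IsPosition D ∧ T D ∧ W D)

theorem not_inP {L : Set (List Bool)} (h : Complete L) : ¬ InP L := by
  intro hP
  obtain ⟨L', h1, h2⟩ := exists_exptime_not_p
  exact h2 (InP.of_reduces (h.2 L' h1) hP)

/-- **Deciding the outcome of an Edge Blocking position is `EXPTIME`-complete**: for each of the
three outcomes (the player to move can force a win, the other player can, neither can), for all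
positions and for the positions in which no edge may be used by both players. Hence none of these
problems is in `P`. -/
theorem result (W : Desc → Prop) (hW : W = MoverWins ∨ W = OtherWins ∨ W = Drawn) :
    Complete (Outcome W (fun _ => True)) ∧ ¬ InP (Outcome W (fun _ => True)) ∧
    Complete (Outcome W Separate) ∧ ¬ InP (Outcome W Separate) := by
  have key : ∀ (T : Desc → Prop) (q : Desc → Bool), NPC.Poly q → (∀ D, q D = true ↔ T D) →
      (∀ D, Separate D → T D) → Complete (Outcome W T) := by
    intro T q hq hT hs
    have e : Outcome W T = lang (fun D : Desc => IsPosition D ∧ q D = true ∧ W D) :=
      lang_congr fun D => by rw [hT D]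
    rw [e]
    exact ⟨(exp_of hW hq).inEXPTIME, fun L' hL' => hard_of hW (fun D hD => (hT D).2 (hs D hD)) hL'⟩
  have h0 : Complete (Outcome W (fun _ => True)) :=
    key _ (fun _ => true) (NPC.Poly.const _) (fun _ => by simp) (fun _ _ => trivial)
  have h1 : Complete (Outcome W Separate) :=
    key _ sepB poly_sepB sepB_iff (fun _ h => h)
  exact ⟨h0, not_inP h0, h1, not_inP h1⟩

end Pool.Agent.Results.MP_817c3f_lc.ExptimeComplete
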